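import Pool.Agent.Helper82.UG.Few
import Pool.Agent.Helper24.UG.Win
import Pool.Agent.Helper24.UG.Mass

/-!
# UG-Q1: few, from R10, R11, K6
-/

set_option autoImplicit false
open MeasureTheory Set Filter Topology
open Pool.Agent.Helper57.Zeta Pool.Agent.Helper57.LH Pool.Agent.Helper57.ED Pool.Agent.Helper54.LG
open Pool.Agent.Helper69.UG
open Pool.Agent.Helper93.UG (zc Few Many ZcMeas one_le_VV)

namespace Pool.Agent.Helper82.UG

theorem few_of3 (h10 : ESS) (h11 : VSS) (h6 : NxDev) : Few :=
  few_of h10 h11 h6 (fun {_} hX t => Helper24.UG.window hX t) Helper24.UG.zc_meas (fun {_} hX => Helper24.UG.qk_mass hX)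

end Pool.Agent.Helper82.UG
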