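import Pool.Agent.Helper82.RG.Zbc
import Mathlib.NumberTheory.ArithmeticFunction.Misc

/-!
# UG: convolutions and Dirichlet polynomials
-/

set_option autoImplicit false
open MeasureTheory Set Filter Topology
open Pool.Agent.Helper57.ED Pool.Agent.Helper82.RG

namespace Pool.Agent.Helper82.UG

/-- Dirichlet convolution -/
noncomputable def cv (a q : ℕ → ℝ) (n : ℕ) : ℝ := ∑ x ∈ n.divisorsAntidiagonal, a x.1 * q x.2

/-- sums over products -/
lemma sum_cv {E : Type*} [AddCommMonoid E] {X N : ℕ} (F : ℕ → ℕ → E) (hF : ∀ d n, X < d ∨ N < n → F d n = 0) :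
    ∑ h ∈ Finset.Icc 1 (X * N), ∑ x ∈ h.divisorsAntidiagonal, F x.1 x.2 =
      ∑ d ∈ Finset.Icc 1 X, ∑ n ∈ Finset.Icc 1 N, F d n := by
  rw [← Finset.sum_product']
  have h1 : ∀ h ∈ Finset.Icc 1 (X * N), ∑ x ∈ h.divisorsAntidiagonal, F x.1 x.2 =
      ∑ x ∈ (Finset.Icc 1 X ×ˢ Finset.Icc 1 N).filter (fun x => x.1 * x.2 = h), F x.1 x.2 := by
    intro h hh
    have hh1 := (Finset.mem_Icc.1 hh).1
    symm
    refine Finset.sum_subset (fun x hx => ?_) (fun x hx hx2 => ?_)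
    · rw [Finset.mem_filter] at hx
      rw [Nat.mem_divisorsAntidiagonal]
      exact ⟨hx.2, by omega⟩
    · rw [Nat.mem_divisorsAntidiagonal] at hx
      rw [Finset.mem_filter, Finset.mem_product, Finset.mem_Icc, Finset.mem_Icc] at hx2
      have h3 : x.1 ≠ 0 := by
        intro h0
        rw [h0, zero_mul] at hx
        omega
      have h4 : x.2 ≠ 0 := by
        intro h0
        rw [h0, mul_zero] at hx
        omega
      apply hF
      by_contra hcon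
      rw [not_or, not_lt, not_lt] at hcon
      exact hx2 ⟨⟨⟨by omega, hcon.1⟩, ⟨by omega, hcon.2⟩⟩, hx.1⟩
  rw [Finset.sum_congr rfl h1]
  rw [Finset.sum_fiberwise_of_maps_to]
  intro x hx
  rw [Finset.mem_product, Finset.mem_Icc, Finset.mem_Icc] at hx
  rw [Finset.mem_Icc]
  exact ⟨Nat.mul_pos hx.1.1 hx.2.1, Nat.mul_le_mul hx.1.2 hx.2.2⟩

/-- product of Dirichlet polynomials -/
lemma Mo_mul {X N : ℕ} {a q : ℕ → ℝ} (ha : ∀ n, X < n → a n = 0) (hq : ∀ n, N < n → q n = 0) (s : ℂ) :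
    Mo X a s * Mo N q s = Mo (X * N) (cv a q) s := by
  unfold Mo cv
  rw [Finset.sum_mul_sum]
  have h1 := sum_cv (X := X) (N := N) (fun d n => (a d : ℂ) * (d : ℂ) ^ (-s) * ((q n : ℂ) * (n : ℂ) ^ (-s)))
    (by
      rintro d n (h | h)
      · rw [ha d h]; simp
      · rw [hq n h]; simp)
  rw [← h1]
  refine Finset.sum_congr rfl fun h hh => ?_
  push_cast
  rw [Finset.sum_mul]
  refine Finset.sum_congr rfl fun x hx => ?_
  rw [Nat.mem_divisorsAntidiagonal] at hx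
  have h2 : (h : ℂ) ^ (-s) = (x.1 : ℂ) ^ (-s) * (x.2 : ℂ) ^ (-s) := by
    rw [← hx.1]
    push_cast
    have := Complex.mul_cpow_ofReal_nonneg (Nat.cast_nonneg (α := ℝ) x.1) (Nat.cast_nonneg (α := ℝ) x.2) (-s)
    simpa using this
  rw [h2]
  ring

lemma cv_supp {X N : ℕ} {a q : ℕ → ℝ} (ha : ∀ n, X < n → a n = 0) (hq : ∀ n, N < n → q n = 0) {n : ℕ}
    (hn : X * N < n) : cv a q n = 0 := by
  unfold cv
  refine Finset.sum_eq_zero fun x hx => ?_
  rw [Nat.mem_divisorsAntidiagonal] at hx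
  by_cases h1 : X < x.1
  · rw [ha _ h1, zero_mul]
  · by_cases h2 : N < x.2
    · rw [hq _ h2, mul_zero]
    · exfalso
      have := Nat.mul_le_mul (not_lt.1 h1) (not_lt.1 h2)
      omega

lemma sum_abs_cv {X N : ℕ} {a q : ℕ → ℝ} (ha : ∀ n, X < n → a n = 0) (hq : ∀ n, N < n → q n = 0) :
    ∑ h ∈ Finset.Icc 1 (X * N), |cv a q h| ≤ (∑ d ∈ Finset.Icc 1 X, |a d|) * ∑ n ∈ Finset.Icc 1 N, |q n| := by
  have h1 := sum_cv (X := X) (N := N) (fun d n => |a d| * |q n|)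
    (by
      rintro d n (h | h)
      · rw [ha d h]; simp
      · rw [hq n h]; simp)
  rw [Finset.sum_mul_sum, ← h1]
  refine Finset.sum_le_sum fun h _ => ?_
  unfold cv
  refine (Finset.abs_sum_le_sum_abs _ _).trans (le_of_eq ?_)
  exact Finset.sum_congr rfl fun x _ => abs_mul _ _

/-- `1 * (a * q) = (1 * a) * q` -/
lemma div_cv {a q : ℕ → ℝ} (ha0 : a 0 = 0) (hq0 : q 0 = 0) (j : ℕ) :
    ∑ h ∈ j.divisors, cv a q h = ∑ h ∈ j.divisors, (∑ d ∈ h.divisors, a d) * q (j / h) := by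
  set A : ArithmeticFunction ℝ := ⟨a, ha0⟩ with hA
  set Q : ArithmeticFunction ℝ := ⟨q, hq0⟩ with hQ
  have h1 : ∑ h ∈ j.divisors, cv a q h = ((ArithmeticFunction.zeta : ArithmeticFunction ℝ) * (A * Q)) j := by
    rw [ArithmeticFunction.coe_zeta_mul_apply]
    refine Finset.sum_congr rfl fun h _ => ?_
    rw [ArithmeticFunction.mul_apply]
    rfl
  rw [h1, ← mul_assoc, ArithmeticFunction.mul_apply,
    Nat.sum_divisorsAntidiagonal (fun x y => ((ArithmeticFunction.zeta : ArithmeticFunction ℝ) * A) x * Q y)]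
  refine Finset.sum_congr rfl fun h _ => ?_
  rw [ArithmeticFunction.coe_zeta_mul_apply]
  rfl

lemma lamb_div {X : ℕ} {b : ℕ → ℝ} (hb : ∀ n, X < n → b n = 0) {j : ℕ} (hj : j ≠ 0) :
    lamb X b j = ∑ h ∈ j.divisors, b h := by
  unfold lamb
  rw [← Finset.sum_filter]
  refine Finset.sum_subset (fun h hh => ?_) (fun h hh hh2 => ?_)
  · rw [Finset.mem_filter] at hh
    exact Nat.mem_divisors.2 ⟨hh.2, hj⟩
  · rw [Nat.mem_divisors] at hh
    rw [Finset.mem_filter, Finset.mem_Icc] at hh2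
    apply hb
    by_contra hcon
    exact hh2 ⟨⟨Nat.pos_of_dvd_of_pos hh.1 (Nat.pos_of_ne_zero hj), not_lt.1 hcon⟩, hh.1⟩

/-- the tsum of `zbc` in terms of divisors -/
lemma tsum_conv {X N : ℕ} {a q : ℕ → ℝ} {σ : ℝ} (hσ : 0 < σ) (ha : ∀ n, X < n → a n = 0)
    (hq : ∀ n, N < n → q n = 0) (ha0 : a 0 = 0) (hq0 : q 0 = 0)
    (hs : Summable (fun j : ℕ => ((∑ h ∈ j.divisors, (∑ d ∈ h.divisors, a d) * q (j / h)) - q j) ^ 2 *
      (j : ℝ) ^ (-2 * σ))) :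
    ∑' j : ℕ, (lamb (X * N) (cv a q) (j + 1) - cutc N q (j + 1)) ^ 2 * ((j:ℝ) + 1) ^ (-2 * σ) =
      ∑' j : ℕ, ((∑ h ∈ j.divisors, (∑ d ∈ h.divisors, a d) * q (j / h)) - q j) ^ 2 * (j : ℝ) ^ (-2 * σ) := by
  rw [hs.tsum_eq_zero_add]
  have h0 : ((∑ h ∈ (0:ℕ).divisors, (∑ d ∈ h.divisors, a d) * q (0 / h)) - q 0) ^ 2 * ((0:ℕ) : ℝ) ^ (-2 * σ) = 0 := by
    rw [Nat.cast_zero, Real.zero_rpow (by linarith), mul_zero]
  rw [h0, zero_add]
  refine tsum_congr fun j => ?_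
  rw [lamb_div (fun n hn => cv_supp ha hq hn) (Nat.succ_ne_zero j), div_cv ha0 hq0]
  have h1 : cutc N q (j + 1) = q (j + 1) := by
    unfold cutc
    split_ifs with h
    · rfl
    · exact (hq _ (not_le.1 h)).symm
  rw [h1]
  push_cast
  rfl

end Pool.Agent.Helper82.UG
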