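import Pool.Agent.Helper82.UG.Win

/-!
# UG-Q1: few zeros in a window, and an ordinate not too far to its left
-/

set_option autoImplicit false
open MeasureTheory Set Filter Topology
open Pool.Agent.Helper57.Zeta Pool.Agent.Helper57.LH Pool.Agent.Helper57.ED Pool.Agent.Helper54.LG
open Pool.Agent.Helper69.UG
open Pool.Agent.Helper93.UG (zc Few Many ZcMeas one_le_VV)

namespace Pool.Agent.Helper82.UG

lemma low_set {w z : ℝ → ℝ} {s Q y : ℝ} (hwi : Integrable w) (hw0 : ∀ t, 0 ≤ w t) (hz : Measurable z)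
    (hy : 0 ≤ y) (hQ : 0 ≤ Q) (hE : ∫⁻ t, ENNReal.ofReal (w t * z (t + s)) ≤ ENNReal.ofReal Q) :
    y * (∫ t, w t) - Q ≤ y * ∫ t in {t | z (t + s) ≤ y}, w t := by
  have hm : MeasurableSet {t : ℝ | z (t + s) ≤ y} := measurableSet_le (hz.comp (by fun_prop)) measurable_const
  have h1 := integral_add_compl hm hwi
  have h2 : y * ∫ t in {t : ℝ | z (t + s) ≤ y}ᶜ, w t ≤ Q := by
    have h3 : ENNReal.ofReal (y * ∫ t in {t : ℝ | z (t + s) ≤ y}ᶜ, w t) ≤ ENNReal.ofReal Q := by
      refine le_trans ?_ hE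
      rw [← integral_const_mul, ofReal_integral_eq_lintegral_ofReal (hwi.integrableOn.const_mul _)
        (Eventually.of_forall fun t => mul_nonneg hy (hw0 t))]
      refine le_trans (setLIntegral_mono' hm.compl fun t ht => ?_) (setLIntegral_le_lintegral _ _)
      apply ENNReal.ofReal_le_ofReal
      rw [mul_comm]
      have ht' : y < z (t + s) := not_le.mp (show ¬ z (t + s) ≤ y from ht)
      exact mul_le_mul_of_nonneg_left ht'.le (hw0 t)
    rwa [ENNReal.ofReal_le_ofReal_iff hQ] at h3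
  rw [← h1]
  linarith

/-- no ordinate within `8/X`. -/
lemma bad_pt {X c t : ℝ} (hX : 0 < X) (hc : 0 < c) (h : ∀ ρ : ZS, 8 / X ≤ |(ρ : ℂ).im - t|) :
    c ≤ 128 / c * SS X t ^ 2 + 18 / c * SS (X / 2) t ^ 2 + 8 * |Helper69.UG.NX X t - c + SS X t| +
      3 * |Helper69.UG.NX (X / 2) t - 2 * c + SS (X / 2) t| := by
  have h1 := Helper24.UG.two_scale hX h
  generalize Helper69.UG.NX X t = N1 at *
  generalize Helper69.UG.NX (X / 2) t = N2 at *
  generalize SS X t = S1 at *
  generalize SS (X / 2) t = S2 at *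
  have h2 := neg_abs_le (N1 - c + S1)
  have h3 := le_abs_self (N2 - 2 * c + S2)
  generalize |N1 - c + S1| = D1 at *
  generalize |N2 - 2 * c + S2| = D2 at *
  have h4 := le_abs_self S1
  have h5 := neg_abs_le S2
  set a := 8 / 3 * |S1| + |S2| with ha
  have ha0 : 0 ≤ a := by positivity
  have h6 : 2 / 3 * c ≤ a + (8 / 3 * D1 + D2) := by linarith
  have h7 : 9 / c * a ^ 2 ≤ 128 / c * S1 ^ 2 + 18 / c * S2 ^ 2 := by
    have e : 128 / c * S1 ^ 2 + 18 / c * S2 ^ 2 - 9 / c * a ^ 2 = 9 / c * (8 / 3 * |S1| - |S2|) ^ 2 := by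
      rw [ha, ← sq_abs S1, ← sq_abs S2]
      field_simp
      ring
    have h8 : 0 ≤ 9 / c * (8 / 3 * |S1| - |S2|) ^ 2 := by positivity
    linarith
  have h8 : 6 * a - c ≤ 9 / c * a ^ 2 := by
    have e : 9 / c * a ^ 2 - (6 * a - c) = (3 * a - c) ^ 2 / c := by
      field_simp
      ring
    have h9 : 0 ≤ (3 * a - c) ^ 2 / c := by positivity
    linarith
  linarith

theorem few_of (h10 : ESS) (h11 : VSS) (h6 : NxDev) (h8 : Window) (hzm : ZcMeas) (h9 : QkMass) : Few := by
  obtain ⟨κ, c1, T1, hκ, h10⟩ := h10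
  obtain ⟨Cs, c2, T2, hCs, h11⟩ := h11
  obtain ⟨Cn, c3, T3, hCn, h6⟩ := h6
  obtain ⟨c4, T4, hwm⟩ := Helper60.UG.wmass
  have hl := Real.tendsto_log_atTop
  have hll : Tendsto (fun T : ℝ => Real.log (Real.log T)) atTop atTop := hl.comp hl
  obtain ⟨T5, hT5⟩ := eventually_atTop.mp ((hll.eventually_ge_atTop 1).and ((hl.eventually_ge_atTop 1).and
    (eventually_ge_atTop 16)))
  set δ := κ / 20 with hδ
  have hδ0 : 0 < δ := by positivity
  set M := δ + 1 + 2 * (3 + 146 * Cs + 11 * Cn) / δ with hM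
  have hM1 : 1 ≤ M := by
    have : 0 ≤ 2 * (3 + 146 * Cs + 11 * Cn) / δ := by positivity
    linarith
  have hMδ : δ < M := by
    have : 0 ≤ 2 * (3 + 146 * Cs + 11 * Cn) / δ := by positivity
    linarith
  have hδM : 2 * (3 + 146 * Cs + 11 * Cn) ≤ δ * M := by
    have : δ * M = δ * (δ + 1) + 2 * (3 + 146 * Cs + 11 * Cn) := by rw [hM]; field_simp
    have h0 : 0 ≤ δ * (δ + 1) := by positivity
    linarith
  refine ⟨δ / 2, max (M ^ 2) (max c1 (max c2 (max c3 c4))), max T5 (max T1 (max T2 (max T3 T4))), by positivity,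
    fun T hT c hc v hv hv0 τ hτ1 hτ2 => ?_⟩
  have hT5' := (le_max_left _ _).trans hT
  have hT' := (le_max_right _ _).trans hT
  have hT1' := (le_max_left _ _).trans hT'
  have hT'' := (le_max_right _ _).trans hT'
  have hT2' := (le_max_left _ _).trans hT''
  have hT''' := (le_max_right _ _).trans hT''
  have hT3' := (le_max_left _ _).trans hT'''
  have hT4' := (le_max_right _ _).trans hT'''
  obtain ⟨hLL, hL1, hT16⟩ := hT5 T hT5'
  obtain ⟨hcM, hcc⟩ := hc
  have hcM0 := (le_max_left _ _).trans hcM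
  have hcr := (le_max_right _ _).trans hcM
  have hc1 := (le_max_left _ _).trans hcr
  have hcr2 := (le_max_right _ _).trans hcr
  have hc2 := (le_max_left _ _).trans hcr2
  have hcr3 := (le_max_right _ _).trans hcr2
  have hc3 := (le_max_left _ _).trans hcr3
  have hc4 := (le_max_right _ _).trans hcr3
  have hc1' : 1 ≤ c := (one_le_pow₀ hM1).trans hcM0
  have hc0 : 0 < c := by linarith
  have hsc : M ≤ √c := Real.le_sqrt_of_sq_le hcM0
  have hscs : √c ^ 2 = c := Real.sq_sqrt hc0.le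
  have hT0 : 0 < T := by linarith
  have hpi := Real.pi_pos
  have hpi4 := Real.pi_lt_four
  have hcL : 16 * c ≤ Real.log T := by
    have : c * 1 ≤ c * Real.log (Real.log T) := mul_le_mul_of_nonneg_left hLL hc0.le
    linarith
  have hX16 : 16 ≤ XX T c := by
    unfold XX
    rw [le_div_iff₀ hc0]
    linarith
  set X := XX T c with hXdef
  have hX0 : 0 < X := by linarith
  have hsT : 4 ≤ √T := Real.le_sqrt_of_sq_le (by linarith)
  have hsT2 : √T ^ 2 = T := Real.sq_sqrt hT0.le
  have hlogT : Real.log T ≤ 2 * √T := by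
    have h1 := Real.log_le_sub_one_of_pos (show 0 < √T by linarith)
    rw [Real.log_sqrt hT0.le] at h1
    linarith
  have hcT : c ≤ T := by
    have h1 := Real.log_le_sub_one_of_pos hT0
    linarith
  have hV1 : 1 ≤ VV T c v := one_le_VV (by linarith) v
  set V := VV T c v with hVdef
  have hV0 : 0 < V := by linarith
  obtain ⟨hwi, hm⟩ := hwm T hT4' c ⟨hc4, hcc⟩ v hv τ
  set w := wt T c v τ with hwdef
  have hW0 : 0 < WW T := by unfold WW; positivity
  have hwc : Continuous w := by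
    rw [hwdef]
    unfold wt
    have h1 : Continuous fun t => PW (WW T) (t - τ) := by
      unfold PW
      apply Continuous.div continuous_const (by fun_prop)
      intro t
      positivity
    exact h1.mul ((Helper60.UG.RR_cont T c v).norm.pow 2)
  have hw0 : ∀ t, 0 ≤ w t := by
    intro t
    rw [hwdef]
    unfold wt
    exact mul_nonneg (PW_pos hW0 _).le (by positivity)
  set m := ∫ t, w t with hmdef
  have hcVT : c * (V / T) ≤ V := by
    rw [mul_div_assoc', div_le_iff₀ hT0, mul_comm]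
    exact mul_le_mul_of_nonneg_left hcT hV0.le
  obtain ⟨hm1, hm2⟩ := abs_le.mp hm
  -- the size of v
  have hv10 : √c = 10 * v := by
    rw [Real.sqrt_eq_iff_mul_self_eq hc0.le (by linarith)]
    linarith
  set Sb := ∫ t, w t * (X / (2 * Real.pi) * ∫ u in (-(Real.pi / X))..(Real.pi / X), SS X (t + u)) with hSb
  have hSb1 : 2 * δ * √c * V ≤ Sb := by
    have h1 : κ * v ^ 2 * V ≤ v * Sb := h10 T hT1' c ⟨hc1, hcc⟩ v hv τ
    have h2 : v * (κ * v * V) ≤ v * Sb := by
      calc v * (κ * v * V) = κ * v ^ 2 * V := by ring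
        _ ≤ _ := h1
    have h3 := le_of_mul_le_mul_left h2 hv0
    calc 2 * δ * √c * V = κ * v * V := by rw [hv10, hδ]; ring
      _ ≤ _ := h3
  -- the window
  set h := Real.pi / X with hh
  have hh0 : 0 < h := by positivity
  have hh1 : h ≤ 1 := by
    rw [hh, div_le_one hX0]
    linarith
  have hXh : X / (2 * Real.pi) = 1 / (2 * h) := by
    rw [hh]
    field_simp
  obtain ⟨BS, hBS⟩ := SS_bdd X
  have hD : ∀ u, |u| ≤ h → Integrable (fun t => w t * |Helper69.UG.NX X (t + u) - c + SS X (t + u)|) ∧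
      ∫ t, w t * |Helper69.UG.NX X (t + u) - c + SS X (t + u)| ≤ Cn * V := by
    intro u hu
    have := h6 T hT3' c ⟨hc3, hcc⟩ v hv τ u 1 hτ1 hτ2 (hu.trans (by linarith)) (Or.inl rfl)
    simpa only [div_one, one_mul] using this
  obtain ⟨hJi, hJ⟩ := mean_avg hwc hwi hw0 (NX_meas X) (SS_cont X) hBS hh0 hD
  set J := ∫ t, w t * (1 / (2 * h) * ∫ u in (-h)..h, Helper69.UG.NX X (t + u)) with hJdef
  rw [← hXh, ← hSb, ← hmdef] at hJ
  have hJ1 : J ≤ (c + 1 - 2 * δ * √c + Cn) * V := by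
    have h1 := (abs_le.mp hJ).2
    have h2 : c * m ≤ c * (V + V / T) := mul_le_mul_of_nonneg_left (by linarith) hc0.le
    have h3 : c * (V + V / T) ≤ c * V + V := by
      have : c * (V + V / T) = c * V + c * (V / T) := by ring
      linarith
    have h4 : (c + 1 - 2 * δ * √c + Cn) * V = c * V + V - 2 * δ * √c * V + Cn * V := by ring
    linarith
  -- the kernel
  obtain ⟨hki, hk1, hkt⟩ := h9 hX0
  set k : ℝ → ℝ := fun s => X / (2 * Real.pi) * qk 0 (X * s) with hk
  have hkc : Continuous k := continuous_const.mul ((qk_cont 0).comp (by fun_prop))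
  have hk0 : ∀ s, 0 ≤ k s := fun s => mul_nonneg (by positivity) (qk_zero_nonneg _)
  set z : ℝ → ℝ := fun t => (zc (Ico (t - h) (t + h)) : ℝ) with hz
  have hzmeas : Measurable z := hzm h
  have hz0 : ∀ t, 0 ≤ z t := fun t => Nat.cast_nonneg _
  have hwin : ∀ t, Integrable (fun s => k s * z (t + s)) ∧
      ∫ s, k s * z (t + s) = 1 / (2 * h) * ∫ u in (-h)..h, Helper69.UG.NX X (t + u) := by
    intro t
    rw [← hXh]
    exact h8 hX0 t
  have hton := tonelli hwc hw0 hzmeas hz0 hkc hk0 hwin hJi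
  rw [← hJdef] at hton
  have hδc : δ < √c := lt_of_lt_of_le hMδ hsc
  have hsc0 : 0 < √c := by linarith
  have hcδ : 0 < c - δ * √c := by
    have h1 : c - δ * √c = √c * (√c - δ) := by linear_combination -hscs
    rw [h1]
    exact mul_pos hsc0 (by linarith)
  have hδsc0 : 0 < δ * √c := mul_pos hδ0 hsc0
  have hδsc : 2 * (3 + 146 * Cs + 11 * Cn) ≤ δ * √c := hδM.trans (mul_le_mul_of_nonneg_left hsc hδ0.le)
  set ε := 3 / (X * (√T / 2)) with hε
  have hε0 : 0 ≤ ε := by positivity
  have hX2 : 16 * (√T / 2) ≤ X * (√T / 2) := mul_le_mul_of_nonneg_right hX16 (by linarith)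
  have hεc : ε * c ≤ 1 := by
    rw [hε, div_mul_eq_mul_div, div_le_one (by positivity)]
    linarith
  have hε1 : ε ≤ 1 / 2 := by
    rw [hε, div_le_div_iff₀ (by positivity) (by norm_num)]
    linarith
  have hQ0 : 0 < (c - δ * √c) * V := by positivity
  obtain ⟨s, hsB, hE⟩ := exists_low (B := √T / 2) (ε := ε) (Q := (c - δ * √c) * V) hkc hk0 hki hk1 (hkt (√T / 2) (by positivity))
    hton hQ0.le (by
      have h1 : ε * (c - δ * √c) ≤ 1 := by
        refine le_trans (mul_le_mul_of_nonneg_left ?_ hε0) hεc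
        linarith
      have h2 : (c - δ * √c - 1) * V ≤ (c - δ * √c) * V * (1 - ε) := by
        have : (c - δ * √c) * V * (1 - ε) = (c - δ * √c - ε * (c - δ * √c)) * V := by ring
        rw [this]
        apply mul_le_mul_of_nonneg_right _ hV0.le
        linarith
      refine lt_of_lt_of_le (lt_of_le_of_lt hJ1 ?_) h2
      apply mul_lt_mul_of_pos_right _ hV0
      linarith) (by
      apply mul_pos hQ0
      linarith)
  refine ⟨s, hsB.trans (by linarith), ?_⟩
  set y := c - δ / 2 * √c with hy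
  have hyc : y ≤ c := by
    have : 0 ≤ δ / 2 * √c := by positivity
    linarith
  have hy0 : 0 ≤ y := by linarith
  have h1 := low_set (y := y) hwi hw0 hzmeas hy0 hQ0.le hE.le
  set S : Set ℝ := {t : ℝ | z (t + s) ≤ y} with hS
  have hSm : MeasurableSet S := measurableSet_le (hzmeas.comp (by fun_prop)) measurable_const
  set G : Set ℝ := {t : ℝ | ∃ ρ : ZS, t + s - Real.pi / X - 16 / X ≤ (ρ : ℂ).im ∧ (ρ : ℂ).im < t + s - Real.pi / X} with hG
  have hGm : MeasurableSet G := by
    have e : G = ⋃ ρ : ZS, {t : ℝ | t + s - Real.pi / X - 16 / X ≤ (ρ : ℂ).im ∧ (ρ : ℂ).im < t + s - Real.pi / X} := by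
      ext t
      simp only [hG, mem_ofPred_eq, mem_iUnion]
    rw [e]
    apply MeasurableSet.iUnion
    intro ρ
    have h5 : Measurable fun t : ℝ => t + s - Real.pi / X - 16 / X := by fun_prop
    have h6 : Measurable fun t : ℝ => t + s - Real.pi / X := by fun_prop
    exact (measurableSet_le h5 measurable_const).inter (measurableSet_lt measurable_const h6)
  have hgoal : ∫ t in {t : ℝ | t + s ∈
        {t : ℝ | (zc (Ico (t - h) (t + h)) : ℝ) ≤ c - δ / 2 * √c ∧
          ∃ ρ : ZS, t - Real.pi / X - 16 / X ≤ (ρ : ℂ).im ∧ (ρ : ℂ).im < t - Real.pi / X}}, w t = ∫ t in S ∩ G, w t := rfl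
  show Real.exp (-c) * V ≤ ∫ t in {t : ℝ | t + s ∈
        {t : ℝ | (zc (Ico (t - h) (t + h)) : ℝ) ≤ c - δ / 2 * √c ∧
          ∃ ρ : ZS, t - Real.pi / X - 16 / X ≤ (ρ : ℂ).im ∧ (ρ : ℂ).im < t - Real.pi / X}}, w t
  rw [hgoal]
  have hsplit := integral_inter_add_diff hGm hwi.integrableOn (s := S)
  -- the bad set
  set u := s - Real.pi / X - 8 / X with hu
  have huT : |u| ≤ √T := by
    have h2 : Real.pi / X + 8 / X ≤ 1 := by
      rw [← add_div, div_le_one hX0]
      linarith
    have h3 : 0 ≤ Real.pi / X + 8 / X := by positivity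
    rw [abs_le] at hsB ⊢
    constructor <;> rw [hu] <;> linarith
  have hd1 : Integrable (fun t => w t * |Helper69.UG.NX X (t + u) - c + SS X (t + u)|) ∧
      ∫ t, w t * |Helper69.UG.NX X (t + u) - c + SS X (t + u)| ≤ Cn * V := by
    have := h6 T hT3' c ⟨hc3, hcc⟩ v hv τ u 1 hτ1 hτ2 huT (Or.inl rfl)
    simpa only [div_one, one_mul] using this
  have hd2 : Integrable (fun t => w t * |Helper69.UG.NX (X / 2) (t + u) - 2 * c + SS (X / 2) (t + u)|) ∧
      ∫ t, w t * |Helper69.UG.NX (X / 2) (t + u) - 2 * c + SS (X / 2) (t + u)| ≤ Cn * V :=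
    h6 T hT3' c ⟨hc3, hcc⟩ v hv τ u 2 hτ1 hτ2 huT (Or.inr rfl)
  have hs1 : ∫ t, w t * SS X (t + u) ^ 2 ≤ Cs * c * V := by
    have := h11 T hT2' c ⟨hc2, hcc⟩ v hv τ u 1 (Or.inl rfl)
    simpa only [div_one] using this
  have hs2 : ∫ t, w t * SS (X / 2) (t + u) ^ 2 ≤ Cs * c * V :=
    h11 T hT2' c ⟨hc2, hcc⟩ v hv τ u 2 (Or.inr rfl)
  have hSi : ∀ Y : ℝ, Integrable fun t => w t * SS Y (t + u) ^ 2 := by
    intro Y
    obtain ⟨B, hB⟩ := SS_bdd Y
    have hc2 : Continuous fun t => SS Y (t + u) ^ 2 := by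
      have := SS_cont Y
      fun_prop
    refine int_bdd hwi (B := B ^ 2) hc2.measurable ?_
    · intro t
      rw [abs_pow]
      exact pow_le_pow_left₀ (abs_nonneg _) (hB _) 2
  set g : ℝ → ℝ := fun t => 128 / c * (w t * SS X (t + u) ^ 2) + 18 / c * (w t * SS (X / 2) (t + u) ^ 2) +
      8 * (w t * |Helper69.UG.NX X (t + u) - c + SS X (t + u)|) +
      3 * (w t * |Helper69.UG.NX (X / 2) (t + u) - 2 * c + SS (X / 2) (t + u)|) with hg
  have i1 : Integrable fun t => 128 / c * (w t * SS X (t + u) ^ 2) := (hSi X).const_mul _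
  have i2 : Integrable fun t => 18 / c * (w t * SS (X / 2) (t + u) ^ 2) := (hSi (X / 2)).const_mul _
  have i3 := hd1.1.const_mul 8
  have i4 := hd2.1.const_mul 3
  have i12 : Integrable fun t => 128 / c * (w t * SS X (t + u) ^ 2) + 18 / c * (w t * SS (X / 2) (t + u) ^ 2) := i1.add i2
  have i123 : Integrable fun t => 128 / c * (w t * SS X (t + u) ^ 2) + 18 / c * (w t * SS (X / 2) (t + u) ^ 2) +
      8 * (w t * |Helper69.UG.NX X (t + u) - c + SS X (t + u)|) := i12.add i3
  have hgi : Integrable g := i123.add i4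
  have hgI : ∫ t, g t ≤ (146 * Cs + 11 * Cn) * V := by
    have e : ∫ t, g t = 128 / c * (∫ t, w t * SS X (t + u) ^ 2) + 18 / c * (∫ t, w t * SS (X / 2) (t + u) ^ 2) +
        8 * (∫ t, w t * |Helper69.UG.NX X (t + u) - c + SS X (t + u)|) +
        3 * (∫ t, w t * |Helper69.UG.NX (X / 2) (t + u) - 2 * c + SS (X / 2) (t + u)|) := by
      rw [hg, integral_add i123 i4, integral_add i12 i3, integral_add i1 i2, integral_const_mul, integral_const_mul,
        integral_const_mul, integral_const_mul]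
    rw [e]
    have e1 : 128 / c * (∫ t, w t * SS X (t + u) ^ 2) ≤ 128 * Cs * V := by
      calc 128 / c * (∫ t, w t * SS X (t + u) ^ 2) ≤ 128 / c * (Cs * c * V) := mul_le_mul_of_nonneg_left hs1 (by positivity)
        _ = 128 * Cs * V := by field_simp
    have e2 : 18 / c * (∫ t, w t * SS (X / 2) (t + u) ^ 2) ≤ 18 * Cs * V := by
      calc 18 / c * (∫ t, w t * SS (X / 2) (t + u) ^ 2) ≤ 18 / c * (Cs * c * V) := mul_le_mul_of_nonneg_left hs2 (by positivity)
        _ = 18 * Cs * V := by field_simp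
    have e3 := hd1.2
    have e4 := hd2.2
    linarith
  have hbad : c * (∫ t in S \ G, w t) ≤ (146 * Cs + 11 * Cn) * V := by
    refine le_trans ?_ hgI
    rw [← integral_const_mul]
    refine le_trans (setIntegral_mono_on (hwi.integrableOn.const_mul _) hgi.integrableOn (hSm.diff hGm) fun t ht => ?_)
      (setIntegral_le_integral hgi (Eventually.of_forall fun t => ?_))
    · have h2 : ∀ ρ : ZS, 8 / X ≤ |(ρ : ℂ).im - (t + u)| := by
        intro ρ
        by_contra hcon
        push Not at hcon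
        rw [abs_lt] at hcon
        apply ht.2
        refine ⟨ρ, ?_, ?_⟩
        · have : (16:ℝ) / X = 8 / X + 8 / X := by ring
          rw [this]
          linarith [hcon.1]
        · linarith [hcon.2]
      have h3 := mul_le_mul_of_nonneg_right (bad_pt hX0 hc0 h2) (hw0 t)
      refine h3.trans (le_of_eq ?_)
      rw [hg]
      ring
    · have h2 := hw0 t
      have : g t = w t * (128 / c * SS X (t + u) ^ 2 + 18 / c * SS (X / 2) (t + u) ^ 2 +
        8 * |Helper69.UG.NX X (t + u) - c + SS X (t + u)| +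
        3 * |Helper69.UG.NX (X / 2) (t + u) - 2 * c + SS (X / 2) (t + u)|) := by rw [hg]; ring
      rw [Pi.zero_apply, this]
      positivity
  have hSw0 : 0 ≤ ∫ t in S, w t := setIntegral_nonneg hSm fun t _ => hw0 t
  have h2 : (δ / 2 * √c - 1) * V ≤ c * ∫ t in S, w t := by
    have h3 : y * (∫ t in S, w t) ≤ c * ∫ t in S, w t := mul_le_mul_of_nonneg_right hyc hSw0
    have h4 : y * (V - V / T) ≤ y * m := mul_le_mul_of_nonneg_left (by linarith) hy0
    have h5 : y * (V / T) ≤ V := le_trans (mul_le_mul_of_nonneg_right hyc (by positivity)) hcVT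
    have h6 : (δ / 2 * √c - 1) * V = y * V - V - (c - δ * √c) * V := by rw [hy]; ring
    have h7 : y * (V - V / T) = y * V - y * (V / T) := by ring
    linarith
  have h3 : V ≤ c * ∫ t in S ∩ G, w t := by
    have h4 : c * (∫ t in S, w t) = c * (∫ t in S ∩ G, w t) + c * ∫ t in S \ G, w t := by rw [← hsplit]; ring
    have h5 : (2 + 146 * Cs + 11 * Cn) * V ≤ (δ / 2 * √c - 1) * V + V := by
      have : (2 + 146 * Cs + 11 * Cn) ≤ δ / 2 * √c - 1 + 1 := by linarith
      have h6 := mul_le_mul_of_nonneg_right this hV0.le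
      linarith
    linarith
  have h4 : Real.exp (-c) * c ≤ 1 := by
    rw [Real.exp_neg, inv_mul_le_iff₀ (Real.exp_pos _), mul_one]
    have := Real.add_one_le_exp c
    linarith
  have h5 : c * (Real.exp (-c) * V) ≤ c * ∫ t in S ∩ G, w t := by
    refine le_trans ?_ h3
    calc c * (Real.exp (-c) * V) = (Real.exp (-c) * c) * V := by ring
      _ ≤ 1 * V := mul_le_mul_of_nonneg_right h4 hV0.le
      _ = V := one_mul _
  exact le_of_mul_le_mul_left h5 hc0

end Pool.Agent.Helper82.UG
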