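import Pool.Agent.Helper69.UG.Defs
import Pool.Agent.Helper82.UG.Cv

/-!
# UG-M5: the weighted second moment of `F - 1`
-/

set_option autoImplicit false
open MeasureTheory Set Filter Topology
open Pool.Agent.Helper57.Zeta Pool.Agent.Helper57.LH Pool.Agent.Helper57.ED Pool.Agent.Helper54.LG
open Pool.Agent.Helper69.UG Pool.Agent.Helper82.RG

namespace Pool.Agent.Helper82.UG

lemma ma_le {T c : ℝ} (d : ℕ) : |ma T c d| ≤ 1 := by
  unfold ma
  split_ifs
  · rw [abs_mul]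
    have h1 : |(ArithmeticFunction.moebius d : ℝ)| ≤ 1 := by
      exact_mod_cast ArithmeticFunction.abs_moebius_le_one (n := d)
    have h2 : |max 0 (min 1 (2 - 32 * Real.log d / Real.log T))| ≤ 1 := by
      rw [abs_of_nonneg (le_max_left _ _)]
      exact max_le zero_le_one (min_le_left _ _)
    exact mul_le_one₀ h1 (abs_nonneg _) h2
  · simp

lemma mb_le {T c : ℝ} (d : ℕ) : |mb T c d| ≤ 1 := by
  unfold mb
  split_ifs
  · exact_mod_cast ArithmeticFunction.abs_moebius_le_one (n := d)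
  · simp

lemma ma_supp {T c : ℝ} (hT : 1 < T) {d : ℕ} (h : ma T c d ≠ 0) : (d : ℝ) ≤ T ^ (1 / 16 : ℝ) := by
  have hL : 0 < Real.log T := Real.log_pos hT
  rcases Nat.eq_zero_or_pos d with h0 | h0
  · subst h0
    simp
    positivity
  · have hd : (0:ℝ) < d := by exact_mod_cast h0
    unfold ma at h
    split_ifs at h with h1
    · have h2 := right_ne_zero_of_mul h
      have h3 : 0 < min 1 (2 - 32 * Real.log d / Real.log T) := by
        by_contra hcon
        exact h2 (max_eq_left (not_lt.1 hcon))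
      have h4 := (lt_min_iff.1 h3).2
      have h5 : Real.log d ≤ 1 / 16 * Real.log T := by
        have : 32 * Real.log d / Real.log T < 2 := by linarith
        rw [div_lt_iff₀ hL] at this
        linarith
      calc (d:ℝ) = Real.exp (Real.log d) := (Real.exp_log hd).symm
        _ ≤ Real.exp (1 / 16 * Real.log T) := Real.exp_le_exp.2 h5
        _ = T ^ (1 / 16 : ℝ) := by rw [Real.rpow_def_of_pos (by linarith), mul_comm]
    · exact absurd rfl h

lemma mb_supp {T c : ℝ} {d : ℕ} (h : mb T c d ≠ 0) : (d : ℝ) ≤ T ^ (1 / 32 : ℝ) := by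
  unfold mb at h
  split_ifs at h with h1
  · exact h1.2
  · exact absurd rfl h

lemma mm_supp {T c : ℝ} (hT : 1 < T) (n : ℕ) (hn : NM T < n) : mm T c n = 0 := by
  unfold mm
  refine Finset.sum_eq_zero fun x hx => ?_
  by_contra hcon
  have h1 := ma_supp hT (left_ne_zero_of_mul hcon)
  have h2 := mb_supp (right_ne_zero_of_mul hcon)
  rw [Nat.mem_divisorsAntidiagonal] at hx
  have h3 : (n : ℝ) ≤ T ^ (3 / 32 : ℝ) := by
    rw [← hx.1]
    push_cast
    calc (x.1 : ℝ) * x.2 ≤ T ^ (1 / 16 : ℝ) * T ^ (1 / 32 : ℝ) :=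
          mul_le_mul h1 h2 (by positivity) (by positivity)
      _ = T ^ (3 / 32 : ℝ) := by
          rw [← Real.rpow_add (by linarith)]
          norm_num
  have h4 : n ≤ NM T := Nat.le_floor h3
  omega

lemma mm_zero {T c : ℝ} : mm T c 0 = 0 := by
  unfold mm
  simp

lemma mm_le {T c : ℝ} (n : ℕ) : |mm T c n| ≤ n := by
  unfold mm
  refine (Finset.abs_sum_le_sum_abs _ _).trans ?_
  calc ∑ x ∈ n.divisorsAntidiagonal, |ma T c x.1 * mb T c x.2| ≤ ∑ x ∈ n.divisorsAntidiagonal, (1:ℝ) := by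
        refine Finset.sum_le_sum fun x _ => ?_
        rw [abs_mul]
        exact mul_le_one₀ (ma_le _) (abs_nonneg _) (mb_le _)
    _ = ((n.divisors.card : ℕ) : ℝ) := by
        rw [Nat.sum_divisorsAntidiagonal (fun _ _ => (1:ℝ))]
        simp
    _ ≤ n := by exact_mod_cast Nat.card_divisors_le_self n

lemma sum_mm {T c : ℝ} (hT : 1 < T) : ∑ d ∈ Finset.Icc 1 (NM T), |mm T c d| ≤ T ^ (3 / 16 : ℝ) := by
  have h0 : (NM T : ℝ) ≤ T ^ (3 / 32 : ℝ) := Nat.floor_le (by positivity)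
  calc ∑ d ∈ Finset.Icc 1 (NM T), |mm T c d| ≤ ∑ d ∈ Finset.Icc 1 (NM T), (NM T : ℝ) := by
        refine Finset.sum_le_sum fun d hd => (mm_le d).trans ?_
        exact_mod_cast (Finset.mem_Icc.1 hd).2
    _ = (NM T : ℝ) * NM T := by
        rw [Finset.sum_const, nsmul_eq_mul, Nat.card_Icc]
        simp
    _ ≤ T ^ (3 / 32 : ℝ) * T ^ (3 / 32 : ℝ) := mul_le_mul h0 h0 (by positivity) (by positivity)
    _ = T ^ (3 / 16 : ℝ) := by
        rw [← Real.rpow_add (by linarith)]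
        norm_num

/-- twisted coefficients (`w` is `cos` or `sin`) -/
noncomputable def qq (T c v σ u : ℝ) (w : ℝ → ℝ) (n : ℕ) : ℝ := rr T c v n * (n : ℝ) ^ (σ - 1 / 2) * w (u * Real.log n)

lemma qq_le {T c v σ u : ℝ} {w : ℝ → ℝ} (hw : ∀ x, |w x| ≤ 1) (n : ℕ) :
    |qq T c v σ u w n| ≤ |rr T c v n| * (n : ℝ) ^ (σ - 1 / 2) := by
  unfold qq
  have h : 0 ≤ (n : ℝ) ^ (σ - 1 / 2) := Real.rpow_nonneg (Nat.cast_nonneg _) _
  rw [abs_mul, abs_mul, abs_of_nonneg h]
  exact mul_le_of_le_one_right (by positivity) (hw _)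

lemma RR_shift {T c v σ u : ℝ} (s : ℝ) :
    RR T c v (s - u) = Mo (NR T) (qq T c v σ u Real.cos) (σ + s * Complex.I) +
      Complex.I * Mo (NR T) (qq T c v σ u Real.sin) (σ + s * Complex.I) := by
  unfold RR Mo
  rw [Finset.mul_sum, ← Finset.sum_add_distrib]
  refine Finset.sum_congr rfl fun n hn => ?_
  have hn0 : 0 < n := (Finset.mem_Icc.1 hn).1
  have hnR : (0:ℝ) < n := by exact_mod_cast hn0
  have hnC : (n : ℂ) ≠ 0 := by exact_mod_cast hnR.ne'
  have e1 : (n : ℂ) ^ (-((1 / 2 : ℂ) + ((s - u : ℝ) : ℂ) * Complex.I)) =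
      (n : ℂ) ^ (-(σ + s * Complex.I)) * (((n : ℝ) ^ (σ - 1 / 2) : ℝ) : ℂ) *
        Complex.exp ((u * Real.log n : ℝ) * Complex.I) := by
    have e2 : (((n : ℝ) ^ (σ - 1 / 2) : ℝ) : ℂ) = (n : ℂ) ^ ((σ - 1 / 2 : ℝ) : ℂ) := by
      rw [Complex.ofReal_cpow hnR.le]
      simp
    have e3 : Complex.exp ((u * Real.log n : ℝ) * Complex.I) = (n : ℂ) ^ (u * Complex.I) := by
      rw [Complex.cpow_def_of_ne_zero hnC, ← Complex.natCast_log]
      congr 1
      push_cast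
      ring
    rw [e2, e3, ← Complex.cpow_add _ _ hnC, ← Complex.cpow_add _ _ hnC]
    congr 1
    push_cast
    ring
  rw [e1, Complex.exp_mul_I, ← Complex.ofReal_cos, ← Complex.ofReal_sin]
  unfold qq
  push_cast
  ring

lemma fin_bd {T c v σ u : ℝ} {w : ℝ → ℝ} (hw : ∀ x, |w x| ≤ 1) (hT : 1 < T) (hσ1 : σ ≤ 3 / 4)
    (hr : ∀ n, |rr T c v n| ≤ T ^ (1 / 192 : ℝ)) :
    ∑ n ∈ Finset.Icc 1 (NR T), |qq T c v σ u w n| ≤ T ^ (31 / 192 : ℝ) := by
  have hT0 : 0 < T := by linarith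
  have h0 : (NR T : ℝ) ≤ T ^ (1 / 8 : ℝ) := Nat.floor_le (by positivity)
  calc ∑ n ∈ Finset.Icc 1 (NR T), |qq T c v σ u w n| ≤
      ∑ n ∈ Finset.Icc 1 (NR T), T ^ (1 / 192 : ℝ) * T ^ (1 / 32 : ℝ) := by
        refine Finset.sum_le_sum fun n hn => (qq_le hw n).trans ?_
        have hn1 := (Finset.mem_Icc.1 hn).1
        have hn2 := (Finset.mem_Icc.1 hn).2
        have hnR : (1:ℝ) ≤ n := by exact_mod_cast hn1
        refine mul_le_mul (hr n) ?_ (Real.rpow_nonneg (by linarith) _) (by positivity)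
        calc (n : ℝ) ^ (σ - 1 / 2) ≤ (n : ℝ) ^ (1 / 4 : ℝ) :=
              Real.rpow_le_rpow_of_exponent_le hnR (by linarith)
          _ ≤ (T ^ (1 / 8 : ℝ)) ^ (1 / 4 : ℝ) := by
              refine Real.rpow_le_rpow (by linarith) (le_trans ?_ h0) (by norm_num)
              exact_mod_cast hn2
          _ = T ^ (1 / 32 : ℝ) := by
              rw [← Real.rpow_mul hT0.le]
              norm_num
    _ = (NR T : ℝ) * (T ^ (1 / 192 : ℝ) * T ^ (1 / 32 : ℝ)) := by
        rw [Finset.sum_const, nsmul_eq_mul, Nat.card_Icc]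
        simp
    _ ≤ T ^ (1 / 8 : ℝ) * (T ^ (1 / 192 : ℝ) * T ^ (1 / 32 : ℝ)) := mul_le_mul_of_nonneg_right h0 (by positivity)
    _ = T ^ (31 / 192 : ℝ) := by
        rw [← Real.rpow_add hT0, ← Real.rpow_add hT0]
        norm_num

/-- The error factor. -/
lemma err_bd : ∃ T1 : ℝ, 10 ≤ T1 ∧ ∀ T : ℝ, T1 ≤ T → ∀ σ τ : ℝ, |τ| ≤ 4 * T → 1 / 2 + 1 / Real.log T ≤ σ → σ ≤ 3 / 4 →
    1 ≤ WW T - σ ∧
    (2 * T ^ (67 / 192 : ℝ)) ^ 2 * (15 * (1 + |τ| / (WW T - σ)) / ((WW T - σ) * (2 * σ - 1)) + 4 / (WW T - σ) +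
      (2 * NR T + 2 * (3 + |τ| / (WW T - σ))) * Real.exp (-((WW T - σ) / (NR T + 1)))) ≤ T ^ (-(1 / 64) : ℝ) := by
  have ht : Tendsto (fun T : ℝ => 800000 * T ^ (-(1 / 10) : ℝ)) atTop (𝓝 0) := by
    have := (tendsto_rpow_neg_atTop (y := (1 / 10 : ℝ)) (by norm_num)).const_mul 800000
    rwa [mul_zero] at this
  obtain ⟨T1, hT1⟩ := (eventually_atTop.1 (ht.eventually_le_const (zero_lt_one)))
  refine ⟨max T1 10, le_max_right _ _, fun T hT σ τ hτ hσ hσ1 => ?_⟩
  have hT10 : 10 ≤ T := (le_max_right _ _).trans hT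
  have hTT1 : T1 ≤ T := (le_max_left _ _).trans hT
  have hT0 : 0 < T := by linarith
  have hT1' : 1 ≤ T := by linarith
  have hL : 0 < Real.log T := Real.log_pos (by linarith)
  set W := WW T with hW
  have hWd : W = T ^ (4095 / 4096 : ℝ) := rfl
  have hW4 : 4 ≤ W := by
    have h1 : T ^ (4095 / 4096 : ℝ) ≥ (10:ℝ) ^ (4095 / 4096 : ℝ) := Real.rpow_le_rpow (by norm_num) hT10 (by norm_num)
    have h2 : (10:ℝ) ^ (4095 / 4096 : ℝ) ≥ 10 ^ (3 / 4 : ℝ) := Real.rpow_le_rpow_of_exponent_le (by norm_num) (by norm_num)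
    have h3 : (4:ℝ) ≤ 10 ^ (3 / 4 : ℝ) := by
      have h4 : ((10:ℝ) ^ (3 / 4 : ℝ)) ^ 4 = 1000 := by
        rw [← Real.rpow_natCast, ← Real.rpow_mul (by norm_num)]
        norm_num
      by_contra hcon
      have h5 : ((10:ℝ) ^ (3 / 4 : ℝ)) ^ 4 < 4 ^ 4 := pow_lt_pow_left₀ (not_le.1 hcon) (by positivity) (by norm_num)
      rw [h4] at h5
      norm_num at h5
    linarith
  set l := W - σ with hl
  have hlW : W / 2 ≤ l := by linarith
  have hl1 : 1 ≤ l := by linarith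
  have hl0 : 0 < l := by linarith
  refine ⟨hl1, ?_⟩
  have hWpos : 0 < W := by linarith
  have hτl : |τ| / l ≤ 8 * T ^ (1 / 4096 : ℝ) := by
    rw [div_le_iff₀ hl0]
    have h1 : T ^ (1 / 4096 : ℝ) * W = T := by
      rw [hWd, ← Real.rpow_add hT0]
      norm_num
    have h2 : 0 ≤ T ^ (1 / 4096 : ℝ) := by positivity
    calc |τ| ≤ 4 * T := hτ
      _ = 8 * T ^ (1 / 4096 : ℝ) * (W / 2) := by
          calc 4 * T = 4 * (T ^ (1 / 4096 : ℝ) * W) := by rw [h1]
            _ = _ := by ring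
      _ ≤ _ := mul_le_mul_of_nonneg_left hlW (by positivity)
  have hp1 : 1 ≤ T ^ (1 / 4096 : ℝ) := Real.one_le_rpow hT1' (by norm_num)
  have h2σ : 2 / Real.log T ≤ 2 * σ - 1 := by
    have : 2 / Real.log T = 2 * (1 / Real.log T) := by ring
    rw [this]
    linarith
  have h2σ0 : 0 < 2 * σ - 1 := lt_of_lt_of_le (by positivity) h2σ
  have hlog : Real.log T ≤ 20 * T ^ (1 / 20 : ℝ) := by
    have := Real.log_le_rpow_div hT0.le (by norm_num : (0:ℝ) < 1 / 20)
    calc Real.log T ≤ T ^ (1 / 20 : ℝ) / (1 / 20) := this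
      _ = _ := by ring
  -- term 1
  have t1 : 15 * (1 + |τ| / l) / (l * (2 * σ - 1)) ≤ 2700 * T ^ (-(9 / 10) : ℝ) := by
    have h1 : W / Real.log T ≤ l * (2 * σ - 1) := by
      calc W / Real.log T = W / 2 * (2 / Real.log T) := by ring
        _ ≤ _ := mul_le_mul hlW h2σ (by positivity) hl0.le
    calc 15 * (1 + |τ| / l) / (l * (2 * σ - 1)) ≤ 15 * (1 + |τ| / l) / (W / Real.log T) :=
          div_le_div_of_nonneg_left (by positivity) (by positivity) h1
      _ ≤ 15 * (9 * T ^ (1 / 4096 : ℝ)) / (W / Real.log T) := by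
          refine div_le_div_of_nonneg_right ?_ (by positivity)
          linarith
      _ = 135 * Real.log T * (T ^ (1 / 4096 : ℝ) / W) := by
          field_simp
          ring
      _ ≤ 135 * (20 * T ^ (1 / 20 : ℝ)) * (T ^ (1 / 4096 : ℝ) / W) := by
          refine mul_le_mul_of_nonneg_right ?_ (by positivity)
          linarith
      _ = 2700 * T ^ (1 / 20 + 1 / 4096 - 4095 / 4096 : ℝ) := by
          rw [Real.rpow_sub hT0, Real.rpow_add hT0, ← hWd]
          ring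
      _ ≤ 2700 * T ^ (-(9 / 10) : ℝ) := by
          refine mul_le_mul_of_nonneg_left ?_ (by norm_num)
          exact Real.rpow_le_rpow_of_exponent_le hT1' (by norm_num)
  have t2 : 4 / l ≤ 8 * T ^ (-(9 / 10) : ℝ) := by
    calc 4 / l ≤ 4 / (W / 2) := div_le_div_of_nonneg_left (by norm_num) (by positivity) hlW
      _ = 8 * T ^ (-(4095 / 4096) : ℝ) := by
          rw [Real.rpow_neg hT0.le, ← hWd]
          field_simp
          norm_num
      _ ≤ _ := by
          refine mul_le_mul_of_nonneg_left ?_ (by norm_num)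
          exact Real.rpow_le_rpow_of_exponent_le hT1' (by norm_num)
  have hNR : (NR T : ℝ) ≤ T ^ (1 / 8 : ℝ) := Nat.floor_le (by positivity)
  have hT8 : 1 ≤ T ^ (1 / 8 : ℝ) := Real.one_le_rpow hT1' (by norm_num)
  have t3 : (2 * NR T + 2 * (3 + |τ| / l)) * Real.exp (-(l / (NR T + 1))) ≤ 190000 * T ^ (-(9 / 10) : ℝ) := by
    have h1 : T ^ (1 / 2 : ℝ) / 4 ≤ l / (NR T + 1) := by
      rw [le_div_iff₀ (by positivity)]
      calc T ^ (1 / 2 : ℝ) / 4 * ((NR T : ℝ) + 1) ≤ T ^ (1 / 2 : ℝ) / 4 * (2 * T ^ (1 / 8 : ℝ)) := by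
            refine mul_le_mul_of_nonneg_left ?_ (by positivity)
            linarith
        _ = T ^ (1 / 2 + 1 / 8 : ℝ) / 2 := by
            rw [Real.rpow_add hT0]
            ring
        _ ≤ W / 2 := by
            rw [hWd]
            refine div_le_div_of_nonneg_right ?_ (by norm_num)
            exact Real.rpow_le_rpow_of_exponent_le hT1' (by norm_num)
        _ ≤ l := hlW
    have h2 : Real.exp (-(l / (NR T + 1))) ≤ 6144 * T ^ (-2 : ℝ) := by
      have hx : 0 < T ^ (1 / 2 : ℝ) / 4 := by positivity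
      have h3 : (T ^ (1 / 2 : ℝ) / 4) ^ 4 / 24 ≤ Real.exp (T ^ (1 / 2 : ℝ) / 4) := by
        have := Real.pow_div_factorial_le_exp (T ^ (1 / 2 : ℝ) / 4) hx.le 4
        simpa [Nat.factorial] using this
      have h4 : (T ^ (1 / 2 : ℝ) / 4) ^ 4 = T ^ (2:ℝ) / 256 := by
        rw [div_pow, ← Real.rpow_natCast, ← Real.rpow_mul hT0.le]
        norm_num
      rw [h4] at h3
      calc Real.exp (-(l / (NR T + 1))) ≤ Real.exp (-(T ^ (1 / 2 : ℝ) / 4)) := Real.exp_le_exp.2 (by linarith)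
        _ = (Real.exp (T ^ (1 / 2 : ℝ) / 4))⁻¹ := Real.exp_neg _
        _ ≤ (T ^ (2:ℝ) / 256 / 24)⁻¹ := inv_anti₀ (by positivity) h3
        _ = 6144 * T ^ (-2 : ℝ) := by
            rw [Real.rpow_neg hT0.le]
            field_simp
            norm_num
    have h5 : T ^ (1 / 4096 : ℝ) ≤ T ^ (1 / 8 : ℝ) := Real.rpow_le_rpow_of_exponent_le hT1' (by norm_num)
    calc (2 * NR T + 2 * (3 + |τ| / l)) * Real.exp (-(l / (NR T + 1))) ≤ (24 * T ^ (1 / 8 : ℝ)) * (6144 * T ^ (-2 : ℝ)) := by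
          refine mul_le_mul ?_ h2 (Real.exp_pos _).le (by positivity)
          linarith
      _ = 147456 * T ^ (1 / 8 + -2 : ℝ) := by
          rw [Real.rpow_add hT0]
          ring
      _ ≤ 147456 * T ^ (-(9 / 10) : ℝ) := by
          refine mul_le_mul_of_nonneg_left ?_ (by norm_num)
          exact Real.rpow_le_rpow_of_exponent_le hT1' (by norm_num)
      _ ≤ _ := by
          refine mul_le_mul_of_nonneg_right (by norm_num) (by positivity)
  have hfin := hT1 T hTT1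
  calc _ ≤ (2 * T ^ (67 / 192 : ℝ)) ^ 2 * (200000 * T ^ (-(9 / 10) : ℝ)) := by
        refine mul_le_mul_of_nonneg_left ?_ (by positivity)
        have : 0 ≤ T ^ (-(9 / 10) : ℝ) := by positivity
        linarith
    _ = 800000 * (T ^ (67 / 192 : ℝ) * T ^ (67 / 192 : ℝ) * T ^ (-(9 / 10) : ℝ)) := by ring
    _ = 800000 * T ^ (67 / 192 + 67 / 192 + -(9 / 10) : ℝ) := by
        rw [← Real.rpow_add hT0, ← Real.rpow_add hT0]
    _ ≤ 800000 * T ^ (-(1 / 10) + -(1 / 64) : ℝ) := by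
        refine mul_le_mul_of_nonneg_left ?_ (by norm_num)
        exact Real.rpow_le_rpow_of_exponent_le hT1' (by norm_num)
    _ = 800000 * T ^ (-(1 / 10) : ℝ) * T ^ (-(1 / 64) : ℝ) := by
        rw [Real.rpow_add hT0]
        ring
    _ ≤ 1 * T ^ (-(1 / 64) : ℝ) := mul_le_mul_of_nonneg_right hfin (by positivity)
    _ = _ := one_mul _

end Pool.Agent.Helper82.UG
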