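import Pool.Agent.Helper93.UG.Q3
import Pool.Agent.Helper60.UG.R
import Pool.Agent.Helper24.UG.Ker

/-!
# UG: the mean of the window counts (tools for Q1, Q2)
-/

set_option autoImplicit false
open MeasureTheory Set Filter Topology
open Pool.Agent.Helper57.Zeta Pool.Agent.Helper57.LH Pool.Agent.Helper57.ED Pool.Agent.Helper54.LG
open Pool.Agent.Helper69.UG
open Pool.Agent.Helper93.UG (zc Few Many ZcMeas one_le_VV)

namespace Pool.Agent.Helper82.UG

/-- R10 -/
def ESS : Prop := ∃ κ c0 T0 : ℝ, 0 < κ ∧ ∀ T, T0 ≤ T → ∀ c, Adm c0 T c → ∀ v : ℝ, v ^ 2 = c / 100 → ∀ τ : ℝ,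
    κ * v ^ 2 * VV T c v ≤ v * ∫ t, wt T c v τ t *
      (XX T c / (2 * Real.pi) * ∫ w in (-(Real.pi / XX T c))..(Real.pi / XX T c), SS (XX T c) (t + w))

/-- R11 -/
def VSS : Prop := ∃ C c0 T0 : ℝ, 0 < C ∧ ∀ T, T0 ≤ T → ∀ c, Adm c0 T c → ∀ v : ℝ, v ^ 2 = c / 100 → ∀ τ u e : ℝ,
    e = 1 ∨ e = 2 → ∫ t, wt T c v τ t * SS (XX T c / e) (t + u) ^ 2 ≤ C * c * VV T c v

/-- K6 -/
def NxDev : Prop := ∃ C c0 T0 : ℝ, 0 < C ∧ ∀ T, T0 ≤ T → ∀ c, Adm c0 T c → ∀ v : ℝ, v ^ 2 = c / 100 →
    ∀ τ u e : ℝ, T ≤ τ → τ ≤ 2 * T → |u| ≤ √T → e = 1 ∨ e = 2 →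
    Integrable (fun t => wt T c v τ t * |Helper69.UG.NX (XX T c / e) (t + u) - e * c + SS (XX T c / e) (t + u)|) ∧
    ∫ t, wt T c v τ t * |Helper69.UG.NX (XX T c / e) (t + u) - e * c + SS (XX T c / e) (t + u)| ≤ C * VV T c v

/-- K8, the window -/
def Window : Prop := ∀ {X : ℝ}, 0 < X → ∀ t : ℝ,
    Integrable (fun s => X / (2 * Real.pi) * qk 0 (X * s) * (zc (Ico (t + s - Real.pi / X) (t + s + Real.pi / X)) : ℝ)) ∧
    ∫ s, X / (2 * Real.pi) * qk 0 (X * s) * (zc (Ico (t + s - Real.pi / X) (t + s + Real.pi / X)) : ℝ) =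
      X / (2 * Real.pi) * ∫ w in (-(Real.pi / X))..(Real.pi / X), Helper69.UG.NX X (t + w)

/-- K8, upper bound -/
def WindowLe : Prop := ∃ C : ℝ, 0 < C ∧ ∀ X : ℝ, 0 < X → ∀ t,
    (zc (Ico (t - Real.pi / X) (t + Real.pi / X)) : ℝ) ≤ C * Helper69.UG.NX X t

/-- K8, trivial bound -/
def ZcTriv : Prop := ∃ C : ℝ, 0 < C ∧ ∀ t h : ℝ, 0 ≤ h → h ≤ 1 → (zc (Ico (t - h) (t + h)) : ℝ) ≤ C * Real.log (4 + |t|)

/-- K9 -/
def QkMass : Prop := ∀ {X : ℝ}, 0 < X → Integrable (fun s => X / (2 * Real.pi) * qk 0 (X * s)) ∧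
    ∫ s, X / (2 * Real.pi) * qk 0 (X * s) = 1 ∧ ∀ B : ℝ, 0 < B →
      ∫ s in {s : ℝ | B < |s|}, X / (2 * Real.pi) * qk 0 (X * s) ≤ 3 / (X * B)

lemma NX_meas (X : ℝ) : Measurable (Helper69.UG.NX X) := by
  have e : Helper69.UG.NX X = fun t => (∑' ρ : ZS, ENNReal.ofReal (mx ρ * qk 0 (zb X t ρ))).toReal := by
    funext t
    rw [ENNReal.tsum_toReal_eq (fun _ => ENNReal.ofReal_ne_top)]
    unfold Helper69.UG.NX
    congr 1
    funext ρ
    rw [ENNReal.toReal_ofReal (mul_nonneg (mx_nonneg _) (qk_zero_nonneg _))]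
  rw [e]
  refine (Measurable.ennreal_tsum fun ρ => ?_).ennreal_toReal
  apply Measurable.ennreal_ofReal
  apply Continuous.measurable
  unfold zb
  exact continuous_const.mul ((qk_cont 0).comp (by fun_prop))

lemma NX_nonneg (X t : ℝ) : 0 ≤ Helper69.UG.NX X t :=
  tsum_nonneg fun ρ => mul_nonneg (mx_nonneg _) (qk_zero_nonneg _)

lemma SS_cont (X : ℝ) : Continuous (SS X) := by
  unfold SS
  exact continuous_const.mul (continuous_finsetSum _ fun p _ => by fun_prop)

lemma SS_bdd (X : ℝ) : ∃ B : ℝ, ∀ t, |SS X t| ≤ B := by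
  refine ⟨|2 / X| * ∑ n ∈ Finset.range (⌊Real.exp X⌋₊ + 1),
    |ArithmeticFunction.vonMangoldt n / Real.sqrt n * (1 - Real.log n / X) ^ 2|, fun t => ?_⟩
  unfold SS
  rw [abs_mul]
  refine mul_le_mul_of_nonneg_left ?_ (abs_nonneg _)
  refine (Finset.abs_sum_le_sum_abs _ _).trans (Finset.sum_le_sum fun n _ => ?_)
  rw [abs_mul]
  exact mul_le_of_le_one_right (abs_nonneg _) (Real.abs_cos_le_one _)

/-- weight times a bounded measurable function. -/
lemma int_bdd {w g : ℝ → ℝ} (hwi : Integrable w) (hg : Measurable g) {B : ℝ} (hB : ∀ t, |g t| ≤ B) :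
    Integrable fun t => w t * g t :=
  hwi.mul_bdd (c := B) hg.aestronglyMeasurable (Eventually.of_forall fun t => by rw [Real.norm_eq_abs]; exact hB t)

/-- the mean of the averaged count. -/
lemma mean_avg {w N S : ℝ → ℝ} {c h K B : ℝ} (hw : Continuous w) (hwi : Integrable w) (hw0 : ∀ t, 0 ≤ w t)
    (hN : Measurable N) (hS : Continuous S) (hSB : ∀ t, |S t| ≤ B) (hh : 0 < h)
    (hD : ∀ u, |u| ≤ h → Integrable (fun t => w t * |N (t + u) - c + S (t + u)|) ∧
      ∫ t, w t * |N (t + u) - c + S (t + u)| ≤ K) :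
    Integrable (fun t => w t * (1 / (2 * h) * ∫ u in (-h)..h, N (t + u))) ∧
    |(∫ t, w t * (1 / (2 * h) * ∫ u in (-h)..h, N (t + u))) -
      (c * (∫ t, w t) - ∫ t, w t * (1 / (2 * h) * ∫ u in (-h)..h, S (t + u)))| ≤ K := by
  set ν : Measure ℝ := volume.restrict (Ioc (-h) h) with hν
  haveI : IsFiniteMeasure ν := ⟨by rw [hν, Measure.restrict_apply_univ, Real.volume_Ioc]; exact ENNReal.ofReal_lt_top⟩
  have hνr : ν.real univ = 2 * h := by
    rw [Measure.real, hν, Measure.restrict_apply_univ, Real.volume_Ioc, ENNReal.toReal_ofReal (by linarith)]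
    ring
  set f : ℝ × ℝ → ℝ := fun p => w p.1 * (N (p.1 + p.2) - c + S (p.1 + p.2)) with hf
  have hfm : Measurable f := by
    have h1 : Measurable fun p : ℝ × ℝ => N (p.1 + p.2) := hN.comp (by fun_prop)
    have h2 : Measurable fun p : ℝ × ℝ => S (p.1 + p.2) := hS.measurable.comp (by fun_prop)
    have h3 : Measurable fun p : ℝ × ℝ => w p.1 := hw.measurable.comp measurable_fst
    exact h3.mul ((h1.sub_const c).add h2)
  have hnorm : ∀ t u, ‖f (t, u)‖ = w t * |N (t + u) - c + S (t + u)| := by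
    intro t u
    rw [hf, Real.norm_eq_abs, abs_mul, abs_of_nonneg (hw0 t)]
  have hu : ∀ᵐ u ∂ν, |u| ≤ h := by
    refine ae_restrict_of_forall_mem measurableSet_Ioc fun u hu => ?_
    rw [abs_le]; exact ⟨hu.1.le, hu.2⟩
  have hfi : Integrable f (volume.prod ν) := by
    rw [integrable_prod_iff' hfm.aestronglyMeasurable]
    constructor
    · filter_upwards [hu] with u hu
      have h1 := (hD u hu).1
      have h2 : AEStronglyMeasurable (fun t => f (t, u)) volume :=
        (hfm.comp (measurable_id.prodMk measurable_const)).aestronglyMeasurable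
      refine (integrable_norm_iff h2).mp ?_
      simpa only [hnorm] using h1
    · have h1 : StronglyMeasurable fun u => ∫ t, ‖f (t, u)‖ := by
        apply StronglyMeasurable.integral_prod_left (f := fun t u => ‖f (t, u)‖)
        exact hfm.norm.stronglyMeasurable
      refine Integrable.mono' (integrable_const K) h1.aestronglyMeasurable ?_
      filter_upwards [hu] with u hu
      rw [Real.norm_of_nonneg (integral_nonneg fun t => norm_nonneg _)]
      simp only [hnorm]
      exact (hD u hu).2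
  have hswap : ∫ t, ∫ u, f (t, u) ∂ν = ∫ u, (∫ t, f (t, u)) ∂ν :=
    integral_integral_swap (f := fun t u => f (t, u)) hfi
  have hK : |∫ t, ∫ u, f (t, u) ∂ν| ≤ K * (2 * h) := by
    rw [hswap, ← Real.norm_eq_abs]
    refine (norm_integral_le_of_norm_le_const (C := K) ?_).trans (by rw [hνr])
    filter_upwards [hu] with u hu
    refine (norm_integral_le_integral_norm _).trans ?_
    simp only [hnorm]
    exact (hD u hu).2
  -- the inner integral
  have hSc : ∀ t, IntervalIntegrable (fun u => S (t + u)) volume (-h) h := fun t =>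
    (hS.comp (by fun_prop : Continuous fun u : ℝ => t + u)).intervalIntegrable _ _
  have hin : ∀ᵐ t : ℝ, w t * (1 / (2 * h) * ∫ u in (-h)..h, N (t + u)) =
      1 / (2 * h) * (∫ u, f (t, u) ∂ν) + c * w t - w t * (1 / (2 * h) * ∫ u in (-h)..h, S (t + u)) := by
    filter_upwards [hfi.prod_right_ae] with t ht
    by_cases h0 : w t = 0
    · simp [hf, h0]
    · have h1 : IntervalIntegrable (fun u => N (t + u)) volume (-h) h := by
        rw [intervalIntegrable_iff_integrableOn_Ioc_of_le (by linarith)]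
        have h2 : Integrable (fun u => (w t)⁻¹ * f (t, u) + c - S (t + u)) ν :=
          ((ht.const_mul _).add (integrable_const _)).sub
            ((intervalIntegrable_iff_integrableOn_Ioc_of_le (by linarith)).mp (hSc t))
        refine h2.congr (Eventually.of_forall fun u => ?_)
        simp only [hf]
        field_simp
        ring
      have h2 : ∫ u, f (t, u) ∂ν = w t * ((∫ u in (-h)..h, N (t + u)) - c * (2 * h) + ∫ u in (-h)..h, S (t + u)) := by
        have h3 : ∫ u, f (t, u) ∂ν = ∫ u in (-h)..h, f (t, u) := by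
          rw [intervalIntegral.integral_of_le (by linarith)]
        rw [h3]
        simp only [hf]
        rw [intervalIntegral.integral_const_mul, intervalIntegral.integral_add (h1.sub intervalIntegrable_const) (hSc t),
          intervalIntegral.integral_sub h1 intervalIntegrable_const, intervalIntegral.integral_const]
        simp only [smul_eq_mul]
        ring
      rw [h2]
      field_simp
      ring
  have hSi : Integrable fun t => w t * (1 / (2 * h) * ∫ u in (-h)..h, S (t + u)) := by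
    apply int_bdd hwi (B := B)
    · apply Continuous.measurable
      apply Continuous.const_mul
      apply intervalIntegral.continuous_parametric_intervalIntegral_of_continuous'
      fun_prop
    · intro t
      have h1 : ‖∫ u in (-h)..h, S (t + u)‖ ≤ B * |h - (-h)| :=
        intervalIntegral.norm_integral_le_of_norm_le_const fun u _ => by rw [Real.norm_eq_abs]; exact hSB _
      have h2 : |h - (-h)| = 2 * h := by rw [abs_of_pos (by linarith)]; ring
      rw [h2, Real.norm_eq_abs] at h1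
      rw [abs_mul, abs_of_pos (by positivity)]
      rw [div_mul_eq_mul_div, one_mul, div_le_iff₀ (by positivity)]
      exact h1
  have hfl : Integrable fun t => ∫ u, f (t, u) ∂ν := hfi.integral_prod_left
  have hR : Integrable fun t => 1 / (2 * h) * (∫ u, f (t, u) ∂ν) + c * w t - w t * (1 / (2 * h) * ∫ u in (-h)..h, S (t + u)) :=
    ((hfl.const_mul _).add (hwi.const_mul _)).sub hSi
  refine ⟨hR.congr (hin.mono fun t ht => ht.symm), ?_⟩
  have hI : ∫ t, (1 / (2 * h) * (∫ u, f (t, u) ∂ν) + c * w t - w t * (1 / (2 * h) * ∫ u in (-h)..h, S (t + u))) =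
      1 / (2 * h) * (∫ t, ∫ u, f (t, u) ∂ν) + c * (∫ t, w t) - ∫ t, w t * (1 / (2 * h) * ∫ u in (-h)..h, S (t + u)) := by
    have h1 : Integrable fun t => 1 / (2 * h) * (∫ u, f (t, u) ∂ν) + c * w t := (hfl.const_mul _).add (hwi.const_mul _)
    rw [integral_sub h1 hSi, integral_add (hfl.const_mul _) (hwi.const_mul _), integral_const_mul, integral_const_mul]
  rw [integral_congr_ae hin, hI]
  have e : 1 / (2 * h) * (∫ t, ∫ u, f (t, u) ∂ν) + c * (∫ t, w t) - (∫ t, w t * (1 / (2 * h) * ∫ u in (-h)..h, S (t + u))) -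
      (c * (∫ t, w t) - ∫ t, w t * (1 / (2 * h) * ∫ u in (-h)..h, S (t + u))) = 1 / (2 * h) * (∫ t, ∫ u, f (t, u) ∂ν) := by ring
  rw [e, abs_mul, abs_of_pos (by positivity), div_mul_eq_mul_div, one_mul, div_le_iff₀ (by positivity)]
  exact hK

/-- Tonelli. -/
lemma tonelli {w z k N : ℝ → ℝ} {h : ℝ} (hw : Continuous w) (hw0 : ∀ t, 0 ≤ w t) (hz : Measurable z) (hz0 : ∀ t, 0 ≤ z t)
    (hk : Continuous k) (hk0 : ∀ s, 0 ≤ k s)
    (hwin : ∀ t, Integrable (fun s => k s * z (t + s)) ∧ ∫ s, k s * z (t + s) = 1 / (2 * h) * ∫ u in (-h)..h, N (t + u))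
    (hi : Integrable (fun t => w t * (1 / (2 * h) * ∫ u in (-h)..h, N (t + u)))) :
    ∫⁻ s, ENNReal.ofReal (k s) * ∫⁻ t, ENNReal.ofReal (w t * z (t + s)) =
      ENNReal.ofReal (∫ t, w t * (1 / (2 * h) * ∫ u in (-h)..h, N (t + u))) := by
  have hnn : ∀ t, 0 ≤ 1 / (2 * h) * ∫ u in (-h)..h, N (t + u) := by
    intro t
    rw [← (hwin t).2]
    exact integral_nonneg fun s => mul_nonneg (hk0 s) (hz0 _)
  rw [ofReal_integral_eq_lintegral_ofReal hi (Eventually.of_forall fun t => mul_nonneg (hw0 t) (hnn t))]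
  have hzm : Measurable fun p : ℝ × ℝ => z (p.2 + p.1) := hz.comp (by fun_prop)
  have hwm : Measurable fun p : ℝ × ℝ => w p.2 := hw.measurable.comp measurable_snd
  have hkm : Measurable fun p : ℝ × ℝ => k p.1 := hk.measurable.comp measurable_fst
  calc ∫⁻ s, ENNReal.ofReal (k s) * ∫⁻ t, ENNReal.ofReal (w t * z (t + s))
      = ∫⁻ s, ∫⁻ t, ENNReal.ofReal (k s) * ENNReal.ofReal (w t * z (t + s)) := by
        refine lintegral_congr fun s => ?_
        rw [lintegral_const_mul]
        exact ((hw.measurable.mul (hz.comp (by fun_prop))).ennreal_ofReal)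
    _ = ∫⁻ t, ∫⁻ s, ENNReal.ofReal (k s) * ENNReal.ofReal (w t * z (t + s)) := by
        apply lintegral_lintegral_swap
        apply Measurable.aemeasurable
        exact hkm.ennreal_ofReal.mul (hwm.mul hzm).ennreal_ofReal
    _ = ∫⁻ t, ENNReal.ofReal (w t * (1 / (2 * h) * ∫ u in (-h)..h, N (t + u))) := by
        refine lintegral_congr fun t => ?_
        rw [ENNReal.ofReal_mul (hw0 t), ← (hwin t).2, ofReal_integral_eq_lintegral_ofReal (hwin t).1
          (Eventually.of_forall fun s => mul_nonneg (hk0 s) (hz0 _)), ← lintegral_const_mul]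
        · refine lintegral_congr fun s => ?_
          rw [ENNReal.ofReal_mul (hw0 t), ENNReal.ofReal_mul (hk0 s)]
          ring
        · exact (hk.measurable.mul (hz.comp (by fun_prop))).ennreal_ofReal

/-- a small mean somewhere. -/
lemma exists_low {k : ℝ → ℝ} {E : ℝ → ENNReal} {J Q B ε : ℝ} (hk : Continuous k) (hk0 : ∀ s, 0 ≤ k s) (hki : Integrable k)
    (hk1 : ∫ s, k s = 1) (htail : ∫ s in {s : ℝ | B < |s|}, k s ≤ ε)
    (hJ : ∫⁻ s, ENNReal.ofReal (k s) * E s = ENNReal.ofReal J) (hQ : 0 ≤ Q) (h : J < Q * (1 - ε)) (h0 : 0 < Q * (1 - ε)) :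
    ∃ s, |s| ≤ B ∧ E s < ENNReal.ofReal Q := by
  by_contra hc
  push Not at hc
  have hm : MeasurableSet {s : ℝ | |s| ≤ B} := measurableSet_le (by fun_prop) measurable_const
  have hsum : (∫ s in {s : ℝ | |s| ≤ B}, k s) + ∫ s in {s : ℝ | B < |s|}, k s = 1 := by
    have e : {s : ℝ | B < |s|} = {s : ℝ | |s| ≤ B}ᶜ := by ext s; simp
    rw [e, integral_add_compl hm hki, hk1]
  have h1 : ENNReal.ofReal (Q * (1 - ε)) ≤ ENNReal.ofReal J := by
    rw [← hJ]
    calc ENNReal.ofReal (Q * (1 - ε)) ≤ ENNReal.ofReal (Q * ∫ s in {s : ℝ | |s| ≤ B}, k s) := by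
          apply ENNReal.ofReal_le_ofReal
          exact mul_le_mul_of_nonneg_left (by linarith) hQ
      _ = ∫⁻ s in {s : ℝ | |s| ≤ B}, ENNReal.ofReal (k s) * ENNReal.ofReal Q := by
          rw [← integral_const_mul, ofReal_integral_eq_lintegral_ofReal (hki.integrableOn.const_mul _)
            (Eventually.of_forall fun s => mul_nonneg hQ (hk0 s))]
          refine lintegral_congr fun s => ?_
          rw [mul_comm, ENNReal.ofReal_mul (hk0 s)]
      _ ≤ ∫⁻ s in {s : ℝ | |s| ≤ B}, ENNReal.ofReal (k s) * E s := by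
          refine setLIntegral_mono' hm fun s hs => ?_
          gcongr
          exact hc s hs
      _ ≤ ∫⁻ s, ENNReal.ofReal (k s) * E s := setLIntegral_le_lintegral _ _
  rw [ENNReal.ofReal_le_ofReal_iff'] at h1
  rcases h1 with h1 | h1 <;> linarith

/-- a large mean somewhere. -/
lemma exists_high {k : ℝ → ℝ} {E : ℝ → ENNReal} {J Q B δ : ℝ} (hk0 : ∀ s, 0 ≤ k s) (hki : Integrable k)
    (hk1 : ∫ s, k s = 1)
    (hJ : ∫⁻ s, ENNReal.ofReal (k s) * E s = ENNReal.ofReal J) (hQ : 0 ≤ Q) (hδ : 0 ≤ δ)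
    (htail : ∫⁻ s in {s : ℝ | B < |s|}, ENNReal.ofReal (k s) * E s ≤ ENNReal.ofReal δ) (h : Q + δ < J) :
    ∃ s, |s| ≤ B ∧ ENNReal.ofReal Q ≤ E s := by
  by_contra hc
  push Not at hc
  have hm : MeasurableSet {s : ℝ | |s| ≤ B} := measurableSet_le (by fun_prop) measurable_const
  have e : {s : ℝ | B < |s|} = {s : ℝ | |s| ≤ B}ᶜ := by ext s; simp
  have h1 : ENNReal.ofReal J ≤ ENNReal.ofReal (Q + δ) := by
    rw [← hJ, ← lintegral_add_compl _ hm, ENNReal.ofReal_add hQ hδ]
    apply add_le_add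
    · calc ∫⁻ s in {s : ℝ | |s| ≤ B}, ENNReal.ofReal (k s) * E s
          ≤ ∫⁻ s in {s : ℝ | |s| ≤ B}, ENNReal.ofReal (k s * Q) := by
            refine setLIntegral_mono' hm fun s hs => ?_
            rw [ENNReal.ofReal_mul (hk0 s)]
            gcongr
            exact (hc s hs).le
        _ ≤ ∫⁻ s, ENNReal.ofReal (k s * Q) := setLIntegral_le_lintegral _ _
        _ = ENNReal.ofReal Q := by
            rw [← ofReal_integral_eq_lintegral_ofReal (hki.mul_const _)
              (Eventually.of_forall fun s => mul_nonneg (hk0 s) hQ), integral_mul_const, hk1, one_mul]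
    · rw [← e]; exact htail
  rw [ENNReal.ofReal_le_ofReal_iff (by linarith)] at h1
  linarith

end Pool.Agent.Helper82.UG
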